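import Pool.Agent.Helper29.E3.St3

/-!
# Project E3: the final form of the bound
-/

set_option autoImplicit false

namespace Pool.Agent.Helper43.E3

open Finset
open Pool.Agent.Helper29.E3

/-- the product of the two larger coefficients -/
theorem prod_FINX (a b c : ℤ) (ha : a ≠ 0) (hb : b ≠ 0) (hc : c ≠ 0) :
    ∃ D : ℤ, |a * b * c| = min |a| (min |b| |c|) * D ∧ max |a| (max |b| |c|) ≤ D ∧
      D ≤ (max 3 (max |a| (max |b| |c|))) ^ 2 := by
  have h1a := Int.one_le_abs ha
  have h1b := Int.one_le_abs hb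
  have h1c := Int.one_le_abs hc
  set m : ℤ := max 3 (max |a| (max |b| |c|)) with hm
  have ham : |a| ≤ m := (le_max_left _ _).trans (le_max_right _ _)
  have hbm : |b| ≤ m := ((le_max_left _ _).trans (le_max_right _ _)).trans (le_max_right _ _)
  have hcm : |c| ≤ m := ((le_max_right _ _).trans (le_max_right _ _)).trans (le_max_right _ _)
  have hm3 : (3 : ℤ) ≤ m := le_max_left _ _
  rcases le_total |a| (min |b| |c|) with h | h
  · refine ⟨|b| * |c|, ?_, ?_, ?_⟩
    · rw [min_eq_left h, abs_mul, abs_mul, mul_assoc]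
    · have h2 := le_min_iff.1 h
      have h3 : |b| ≤ |b| * |c| := by nlinarith
      have h4 : |c| ≤ |b| * |c| := by nlinarith
      exact max_le (h2.1.trans h3) (max_le h3 h4)
    · rw [pow_two]
      exact mul_le_mul hbm hcm (by omega) (by omega)
  · rcases le_total |b| |c| with h' | h'
    · rw [min_eq_left h'] at h
      refine ⟨|a| * |c|, ?_, ?_, ?_⟩
      · rw [min_eq_left h', min_eq_right h, abs_mul, abs_mul]; ring
      · have h3 : |a| ≤ |a| * |c| := by nlinarith
        have h4 : |c| ≤ |a| * |c| := by nlinarith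
        exact max_le h3 (max_le (h'.trans h4) h4)
      · rw [pow_two]
        exact mul_le_mul ham hcm (by omega) (by omega)
    · rw [min_eq_right h'] at h
      refine ⟨|a| * |b|, ?_, ?_, ?_⟩
      · rw [min_eq_right h', min_eq_right h, abs_mul, abs_mul]; ring
      · have h3 : |a| ≤ |a| * |b| := by nlinarith
        have h4 : |b| ≤ |a| * |b| := by nlinarith
        exact max_le h3 (max_le h4 (h'.trans h4))
      · rw [pow_two]
        exact mul_le_mul ham hbm (by omega) (by omega)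

theorem hFINX : StFINX := by
  intro ε hε
  obtain ⟨N, hN⟩ := exists_nat_gt (1 / ε)
  have hNr : (0 : ℝ) < N := lt_trans (by positivity) hN
  have hN1 : 1 ≤ N := by
    have : (0 : ℕ) < N := by exact_mod_cast hNr
    omega
  refine ⟨N, hN1, ?_⟩
  have hαβ : 1 / (2 * (N : ℝ)) < ε := by
    rw [div_lt_iff₀ (by positivity)]
    rw [div_lt_iff₀ hε] at hN
    nlinarith
  set α : ℝ := 3 / 2 + 1 / (2 * (N : ℝ)) with hα
  set β : ℝ := 3 / 2 + ε with hβ
  have hab : 0 < β - α := by rw [hα, hβ]; linarith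
  have hα0 : 0 < α := by rw [hα]; positivity
  have hβ0 : 0 < β := by rw [hβ]; positivity
  set D₀ : ℝ := (32 : ℝ) ^ (1 / (β - α)) with hD₀
  have hD₀1 : 1 ≤ D₀ := Real.one_le_rpow (by norm_num) (by positivity)
  have hD₀32 : D₀ ^ (β - α) = 32 := by
    rw [hD₀, ← Real.rpow_mul (by norm_num), one_div, inv_mul_cancel₀ hab.ne', Real.rpow_one]
  obtain ⟨x₁, hx₁⟩ := exists_nat_gt (max D₀ (96 * (D₀ ^ α * D₀)))
  refine ⟨x₁, ?_⟩
  intro a b c d ha hb hc hx
  obtain ⟨Di, hDi, hDmax, hDm⟩ := prod_FINX a b c ha hb hc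
  set m : ℤ := max 3 (max |a| (max |b| |c|)) with hm
  set k : ℤ := min |a| (min |b| |c|) with hk
  have hk1 : (1 : ℤ) ≤ k := by
    rw [hk]
    exact le_min (Int.one_le_abs ha) (le_min (Int.one_le_abs hb) (Int.one_le_abs hc))
  have hm3' : (3 : ℤ) ≤ m := le_max_left _ _
  have hkR : (1 : ℝ) ≤ k := by exact_mod_cast hk1
  have hmR : (3 : ℝ) ≤ m := by exact_mod_cast hm3'
  have hkmax : k ≤ max |a| (max |b| |c|) := (min_le_left _ _).trans (le_max_left _ _)
  have hkD : (k : ℝ) ≤ Di := by exact_mod_cast hkmax.trans hDmax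
  have hD1 : (1 : ℝ) ≤ Di := hkR.trans hkD
  have hDR : |((a * b * c : ℤ) : ℝ)| / k = Di := by
    rw [div_eq_iff (by linarith)]
    have : ((|a * b * c| : ℤ) : ℝ) = ((k * Di : ℤ) : ℝ) := by rw [hDi]
    rw [Int.cast_abs] at this
    rw [this]
    push_cast
    ring
  rw [hDR]
  have hd0 := abs_nonneg (d : ℝ)
  have hdk : 0 ≤ |(d : ℝ)| / k := by positivity
  have hDβ : (0 : ℝ) ≤ (Di : ℝ) ^ β := Real.rpow_nonneg (by linarith) _
  have e1 : 8 / 3 * |(d : ℝ)| / k = 8 / 3 * (|(d : ℝ)| / k) := by ring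
  have e2 : 3 * |(d : ℝ)| / k = 3 * (|(d : ℝ)| / k) := by ring
  have main : 8 / 3 * |(d : ℝ)| / k + 32 * (Di : ℝ) ^ α ≤ 3 * |(d : ℝ)| / k + (Di : ℝ) ^ β := by
    rw [e1, e2]
    rcases le_or_gt D₀ (Di : ℝ) with h | h
    · have h1 : 32 ≤ (Di : ℝ) ^ (β - α) := by
        rw [← hD₀32]
        exact Real.rpow_le_rpow (by linarith) h hab.le
      have h2 : 32 * (Di : ℝ) ^ α ≤ (Di : ℝ) ^ β := by
        calc 32 * (Di : ℝ) ^ α ≤ (Di : ℝ) ^ (β - α) * (Di : ℝ) ^ α :=
              mul_le_mul_of_nonneg_right h1 (Real.rpow_nonneg (by linarith) _)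
          _ = (Di : ℝ) ^ β := by
              rw [← Real.rpow_add (by linarith)]
              congr 1
              ring
      linarith
    · -- small coefficients
      have h1 : (x₁ : ℤ) ≤ |d| := by
        rcases le_max_iff.1 hx with h' | h'
        · exact h'
        · exfalso
          have h2 : ((x₁ : ℤ) : ℝ) ≤ (Di : ℝ) := by exact_mod_cast h'.trans hDmax
          have h3 : D₀ < (x₁ : ℝ) := (le_max_left _ _).trans_lt hx₁
          push_cast at h2
          linarith
      have h2 : (x₁ : ℝ) ≤ |(d : ℝ)| := by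
        have : ((x₁ : ℤ) : ℝ) ≤ ((|d| : ℤ) : ℝ) := by exact_mod_cast h1
        rw [Int.cast_abs] at this
        exact_mod_cast this
      have h3 : 96 * (D₀ ^ α * D₀) < (x₁ : ℝ) := (le_max_right _ _).trans_lt hx₁
      have h4 : (Di : ℝ) ^ α ≤ D₀ ^ α := Real.rpow_le_rpow (by linarith) h.le hα0.le
      have h5 : 96 * (D₀ ^ α * D₀) ≤ |(d : ℝ)| := by linarith
      have h6 : 96 * D₀ ^ α ≤ |(d : ℝ)| / k := by
        rw [le_div_iff₀ (by linarith)]
        have h7 : 0 ≤ D₀ ^ α := Real.rpow_nonneg (by linarith) _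
        nlinarith
      linarith
  refine le_min main (main.trans ?_)
  have h1 : 3 * |(d : ℝ)| / k ≤ 3 * |(d : ℝ)| := div_le_self (by positivity) hkR
  have h2 : (Di : ℝ) ^ β ≤ (m : ℝ) ^ (3 + 2 * ε) := by
    have h3 : (Di : ℝ) ≤ (m : ℝ) ^ (2 : ℝ) := by
      rw [show (2 : ℝ) = ((2 : ℕ) : ℝ) by norm_num, Real.rpow_natCast]
      exact_mod_cast hDm
    calc (Di : ℝ) ^ β ≤ ((m : ℝ) ^ (2 : ℝ)) ^ β := Real.rpow_le_rpow (by linarith) h3 hβ0.le
      _ = (m : ℝ) ^ (3 + 2 * ε) := by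
          rw [← Real.rpow_mul (by linarith)]
          congr 1
          rw [hβ]
          ring
  linarith

end Pool.Agent.Helper43.E3
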